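import Pool.Agent.H80.JD.Basic

/-!
# Largest cluster diameter of binary perceptrons: module NCC

Number of the chains of type C; their lengths and the distances of their members.
-/

set_option autoImplicit false

namespace Pool.Agent.H56.JD

open Finset Filter Topology Pool.Agent.H80.JD

lemma card_sphere_zero (n M : ℕ) :
    (univ.filter (fun D : Fin n → Bool => hammingDist (zero n) D = M)).card = n.choose M := by
  classical
  have h1 : (univ.filter (fun D : Fin n → Bool => hammingDist (zero n) D = M)).card =
      (powersetCard M (univ : Finset (Fin n))).card := by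
    refine Finset.card_bij' (fun D _ => univ.filter (fun c => D c = true))
      (fun s _ => fun c => decide (c ∈ s)) ?_ ?_ ?_ ?_
    · intro D hD
      rw [mem_filter] at hD
      rw [mem_powersetCard]
      exact ⟨subset_univ _, by rw [← hammingDist_zero_eq]; exact hD.2⟩
    · intro s hs
      rw [mem_powersetCard] at hs
      rw [mem_filter, hammingDist_zero_eq]
      refine ⟨mem_univ _, ?_⟩
      rw [← hs.2]
      congr 1
      ext c
      simp
    · intro D _
      funext c
      simp
    · intro s _
      ext c
      simp
  rw [h1, card_powersetCard, card_univ, Fintype.card_fin]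

lemma card_sphere (n M : ℕ) (D' : Fin n → Bool) :
    (univ.filter (fun D : Fin n → Bool => hammingDist D D' = M)).card = n.choose M := by
  classical
  rw [← card_sphere_zero n M]
  refine Finset.card_bij' (fun D _ => xr D' D) (fun D _ => xr D' D) ?_ ?_ ?_ ?_
  · intro D hD
    rw [mem_filter] at hD ⊢
    refine ⟨mem_univ _, ?_⟩
    rw [hammingDist_xr_zero, hammingDist_comm]
    exact hD.2
  · intro D hD
    rw [mem_filter] at hD ⊢
    refine ⟨mem_univ _, ?_⟩
    rw [hammingDist_comm, ← hammingDist_xr_zero, xr_xr]
    exact hD.2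
  · intro D _
    exact xr_xr _ _
  · intro D _
    exact xr_xr _ _

lemma mem_chainsC_succ {n M j : ℕ} {L : List (Fin n → Bool)} :
    L ∈ chainsC n M (j + 1) ↔ ∃ L' ∈ chainsC n M j, ∃ D : Fin n → Bool,
      ((∀ D' ∈ zero n :: L', M ≤ hammingDist D D' ∧ hammingDist D D' + M ≤ n) ∧
        ∃ D' ∈ zero n :: L', hammingDist D D' = M) ∧ D :: L' = L := by
  classical
  rw [chainsC, mem_biUnion]
  constructor
  · rintro ⟨L', hL', hL⟩
    rw [mem_image] at hL
    obtain ⟨D, hD, hDL⟩ := hL
    rw [mem_filter] at hD
    exact ⟨L', hL', D, hD.2, hDL⟩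
  · rintro ⟨L', hL', D, hD, hDL⟩
    exact ⟨L', hL', mem_image.2 ⟨D, mem_filter.2 ⟨mem_univ _, hD⟩, hDL⟩⟩

lemma chainsC_props (n M : ℕ) : ∀ (j : ℕ), ∀ L ∈ chainsC n M j, L.length = j ∧
    (L ++ [zero n]).Pairwise (fun D D' => M ≤ hammingDist D D' ∧ hammingDist D D' + M ≤ n) := by
  intro j
  induction j with
  | zero =>
      intro L hL
      rw [chainsC, mem_singleton] at hL
      subst hL
      exact ⟨rfl, by simp⟩
  | succ j ih =>
      intro L hL
      obtain ⟨L', hL', D, ⟨hD, -⟩, rfl⟩ := mem_chainsC_succ.1 hL
      obtain ⟨h1, h2⟩ := ih L' hL'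
      refine ⟨by rw [List.length_cons, h1], ?_⟩
      rw [List.cons_append, List.pairwise_cons]
      refine ⟨?_, h2⟩
      intro D' hD'
      apply hD
      rw [List.mem_append, List.mem_singleton] at hD'
      rw [List.mem_cons]
      exact hD'.symm

lemma card_chainsC (n M J : ℕ) : ∀ j : ℕ, j ≤ J →
    (chainsC n M j).card ≤ (J * n.choose M) ^ j := by
  classical
  intro j
  induction j with
  | zero =>
      intro _
      simp [chainsC]
  | succ j ih =>
      intro hj
      have h1 := ih (by omega)
      rw [chainsC, pow_succ]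
      refine (Finset.card_biUnion_le_card_mul _ _ (J * n.choose M) ?_).trans
        (Nat.mul_le_mul_right _ h1)
      intro L hL
      have hlen : (zero n :: L).length ≤ J := by
        rw [List.length_cons, (chainsC_props n M j L hL).1]
        exact hj
      refine Finset.card_image_le.trans ?_
      have hsub : (univ.filter (fun D : Fin n → Bool =>
          (∀ D' ∈ zero n :: L, M ≤ hammingDist D D' ∧ hammingDist D D' + M ≤ n) ∧
            ∃ D' ∈ zero n :: L, hammingDist D D' = M)) ⊆
          (zero n :: L).toFinset.biUnion
            (fun D' => univ.filter (fun D : Fin n → Bool => hammingDist D D' = M)) := by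
        intro D hD
        rw [mem_filter] at hD
        obtain ⟨D', hD', hDD'⟩ := hD.2.2
        rw [mem_biUnion]
        exact ⟨D', List.mem_toFinset.2 hD', mem_filter.2 ⟨mem_univ _, hDD'⟩⟩
      refine (Finset.card_le_card hsub).trans ?_
      refine (Finset.card_biUnion_le_card_mul _ _ (n.choose M) ?_).trans ?_
      · intro D' _
        exact (card_sphere n M D').le
      · exact Nat.mul_le_mul_right _ ((List.toFinset_card_le _).trans hlen)

theorem ncc : T_NCC := by
  intro n M J
  exact ⟨card_chainsC n M J J le_rfl, chainsC_props n M J⟩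

end Pool.Agent.H56.JD
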