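import Pool.Agent.H80.JD.Basic

/-!
# Largest cluster diameter of binary perceptrons: module SP

A row is split into the coordinates where `D` is false and those where it is true.
-/

set_option autoImplicit false

namespace Pool.Agent.H56.JD

open Finset Filter Topology Pool.Agent.H80.JD

/-- transport of the counts along an equivalence of the index types -/
lemma card_signs {α : Type} [Fintype α] {k : ℕ} (e : α ≃ Fin k) (P : ℤ → Prop) :
    Nat.card {g : α → Bool // P (∑ i, sg (g i))} =
      Nat.card {g : Fin k → Bool // P (ip g (zero k))} := by
  refine Nat.card_congr ((Equiv.arrowCongr e (Equiv.refl Bool)).subtypeEquiv ?_)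
  intro g
  have h1 : ip (Equiv.arrowCongr e (Equiv.refl Bool) g) (zero k) = ∑ i, sg (g i) := by
    rw [ip_zero]
    have h2 : ∀ j : Fin k, sg (Equiv.arrowCongr e (Equiv.refl Bool) g j) = sg (g (e.symm j)) := by
      intro j
      rfl
    rw [Finset.sum_congr rfl (fun j _ => h2 j)]
    exact Equiv.sum_comp e.symm (fun i => sg (g i))
  rw [h1]

theorem sp : T_SP := by
  intro n M D hM
  classical
  refine ⟨fun h => ∑ i : {i : Fin n // D i = false}, sg (h i),
    fun h => ∑ i : {i : Fin n // ¬ D i = false}, sg (h i), ?_, ?_⟩
  · intro h
    refine ⟨?_, ?_⟩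
    · rw [ip_zero]
      exact (Fintype.sum_subtype_add_sum_subtype (fun i => D i = false)
        (fun i => sg (h i))).symm
    · unfold ip
      rw [← Fintype.sum_subtype_add_sum_subtype (fun i => D i = false)
        (fun i => sg (h i) * sg (D i)), sub_eq_add_neg, ← Finset.sum_neg_distrib]
      congr 1
      · refine Finset.sum_congr rfl (fun i _ => ?_)
        rw [i.2, sg_false, mul_one]
      · refine Finset.sum_congr rfl (fun i _ => ?_)
        have h1 : D i = true := by
          rcases hb : D i with _ | _
          · exact absurd hb i.2
          · rfl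
        rw [h1, sg_true]
        ring
  · intro P Q
    have hcard : Fintype.card {i : Fin n // ¬ D i = false} = M := by
      rw [← hM, hammingDist_zero_eq, Fintype.card_subtype]
      congr 1
      ext i
      simp
    have hcard' : Fintype.card {i : Fin n // D i = false} = n - M := by
      have h1 := Fintype.card_subtype_compl (fun i : Fin n => ¬ D i = false)
      rw [hcard, Fintype.card_fin] at h1
      rw [← h1]
      refine Fintype.card_congr (Equiv.subtypeEquivRight ?_)
      intro i
      exact not_not.symm
    rw [← card_signs (Fintype.equivFinOfCardEq hcard') P,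
      ← card_signs (Fintype.equivFinOfCardEq hcard) Q, ← Nat.card_prod]
    refine Nat.card_congr (Equiv.trans ((Equiv.piEquivPiSubtypeProd (fun i => D i = false)
      (fun _ => Bool)).subtypeEquiv (q := fun x => P (∑ i, sg (x.1 i)) ∧ Q (∑ i, sg (x.2 i)))
      ?_) (Equiv.subtypeProdEquivProd
        (p := fun g : {i : Fin n // D i = false} → Bool => P (∑ i, sg (g i)))
        (q := fun g : {i : Fin n // ¬ D i = false} → Bool => Q (∑ i, sg (g i)))))
    intro h
    exact Iff.rfl

end Pool.Agent.H56.JD
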